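import Pool.Agent.Helper18.ZE.Defs

/-!
# Project ZE, piece S: the size of the determinant and the number of the columns
-/

set_option autoImplicit false

namespace Pool.Agent.Helper45.ZE

open Finset Pool.Agent.Helper18.ZE

/-- The size of a determinant with two kinds of columns, from the expansion. -/
theorem det_le_of_col_le {α β : Type} [Fintype α] [Fintype β] [DecidableEq α] [DecidableEq β]
    (M : Matrix (α ⊕ β) (α ⊕ β) ℤ) (X Y : ℝ) (hX : 0 ≤ X)
    (h1 : ∀ c a, |((M c (Sum.inl a) : ℤ) : ℝ)| ≤ X) (h2 : ∀ c b, |((M c (Sum.inr b) : ℤ) : ℝ)| ≤ Y) :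
    ((|M.det| : ℤ) : ℝ) ≤
      ((Fintype.card α + Fintype.card β).factorial : ℝ) * X ^ Fintype.card α * Y ^ Fintype.card β := by
  have hterm : ∀ σ : Equiv.Perm (α ⊕ β), |((Equiv.Perm.sign σ • ∏ d, M (σ d) d : ℤ) : ℝ)| ≤
      X ^ Fintype.card α * Y ^ Fintype.card β := by
    intro σ
    have h3 : |((Equiv.Perm.sign σ • ∏ d, M (σ d) d : ℤ) : ℝ)| = ∏ d, |((M (σ d) d : ℤ) : ℝ)| := by
      rw [← Finset.abs_prod]
      rcases Int.units_eq_one_or (Equiv.Perm.sign σ) with h | h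
      · rw [h]; simp
      · rw [h]; simp
    rw [h3, Fintype.prod_sum_type]
    have h4 : (∏ a : α, |((M (σ (Sum.inl a)) (Sum.inl a) : ℤ) : ℝ)|) ≤ X ^ Fintype.card α := by
      calc _ ≤ ∏ _a : α, X := Finset.prod_le_prod (fun _ _ => abs_nonneg _) fun p _ => h1 _ p
        _ = _ := by simp
    have h5 : (∏ b : β, |((M (σ (Sum.inr b)) (Sum.inr b) : ℤ) : ℝ)|) ≤ Y ^ Fintype.card β := by
      calc _ ≤ ∏ _b : β, Y := Finset.prod_le_prod (fun _ _ => abs_nonneg _) fun p _ => h2 _ p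
        _ = _ := by simp
    exact mul_le_mul h4 h5 (Finset.prod_nonneg fun _ _ => abs_nonneg _) (pow_nonneg hX _)
  rw [Int.cast_abs, Matrix.det_apply, Int.cast_sum]
  refine (Finset.abs_sum_le_sum_abs _ _).trans ((Finset.sum_le_sum fun σ _ => hterm σ).trans (le_of_eq ?_))
  rw [Finset.sum_const, Finset.card_univ, Fintype.card_perm, Fintype.card_sum, nsmul_eq_mul, mul_assoc]

/-- The product of the binomials of a row is at most `2 ^ (sum of the exponents)`. -/
theorem bin_le {r : ℕ} (v : Row r) (j : Fin r → ℕ) {A : ℕ} (hA : ∑ i, v.1 i ≤ A) : bin v j ≤ 2 ^ A := by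
  have h1 : bin v j ≤ ∏ i : Fin r, 2 ^ v.1 i.succ :=
    Finset.prod_le_prod' fun i _ => Nat.choose_le_two_pow _ _
  have h2 : (∏ i : Fin r, 2 ^ v.1 i.succ) = 2 ^ ∑ i : Fin r, v.1 i.succ :=
    Finset.prod_pow_eq_pow_sum _ _ _
  have h3 : ∑ i : Fin r, v.1 i.succ ≤ A := by
    have h4 := Fin.sum_univ_succ v.1
    omega
  calc bin v j ≤ _ := h1
    _ = _ := h2
    _ ≤ 2 ^ A := Nat.pow_le_pow_right (by norm_num) h3

/-- The size of the determinant. -/
theorem det_le {r q s : ℕ} (rows : Col r q s → Row r) (N : Row r → ℤ) (A F : ℕ) (H : ℝ)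
    (hA : ∀ c, ∑ i, (rows c).1 i ≤ A) (hF : ∀ c, (rows c).2 ≤ F) (hH : 0 ≤ H)
    (hN : ∀ c, (|N (rows c)| : ℤ) ≤ H) :
    (|(Matrix.of fun c d => entry N (rows c) d).det| : ℤ) ≤
      (((Ex r q s).card + (Rx r q).card).factorial : ℝ) * (2 ^ (A + F)) ^ (Ex r q s).card *
        (2 ^ A * H) ^ (Rx r q).card := by
  have h0 := det_le_of_col_le (Matrix.of fun c d : Col r q s => entry N (rows c) d)
    (2 ^ (A + F)) (2 ^ A * H) (by positivity) ?_ ?_
  · simpa only [Fintype.card_coe] using h0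
  · intro c p
    have h1 : bin (rows c) p.1.1 * (rows c).2.choose p.1.2 ≤ 2 ^ (A + F) := by
      rw [pow_add]
      exact Nat.mul_le_mul (bin_le _ _ (hA c))
        ((Nat.choose_le_two_pow _ _).trans (Nat.pow_le_pow_right (by norm_num) (hF c)))
    have h2 : ((bin (rows c) p.1.1 * (rows c).2.choose p.1.2 : ℕ) : ℝ) ≤ 2 ^ (A + F) := by
      exact_mod_cast h1
    have h3 : ((Matrix.of (fun c d : Col r q s => entry N (rows c) d) c (Sum.inl p) : ℤ) : ℝ) =
        ((bin (rows c) p.1.1 * (rows c).2.choose p.1.2 : ℕ) : ℝ) := by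
      simp [entry]
    rw [h3, abs_of_nonneg (Nat.cast_nonneg _)]
    exact h2
  · intro c p
    have h1 : |((bin (rows c) p.1 : ℕ) : ℝ)| ≤ 2 ^ A := by
      rw [abs_of_nonneg (Nat.cast_nonneg _)]
      exact_mod_cast bin_le _ _ (hA c)
    have h3 : ((Matrix.of (fun c d : Col r q s => entry N (rows c) d) c (Sum.inr p) : ℤ) : ℝ) =
        ((bin (rows c) p.1 : ℕ) : ℝ) * ((N (rows c) : ℤ) : ℝ) := by
      simp [entry, mul_comm]
    have h4 : |((N (rows c) : ℤ) : ℝ)| ≤ H := by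
      have := hN c
      rwa [Int.cast_abs] at this
    rw [h3, abs_mul]
    exact mul_le_mul h1 h4 (abs_nonneg _) (by positivity)

/-- The number of the other columns. -/
theorem card_Rx_eq {r q : ℕ} : (Rx r q).card = ((q - 1) / r + 1) ^ r := by
  simp [Rx]

/-- The number of the exact columns, compared with the number of the other columns. -/
theorem card_Ex_le {r q s : ℕ} (hr : 1 ≤ r) (hq : 0 < q) :
    (Ex r q s).card ≤ s * (s * r) ^ r * (Rx r q).card := by
  have h1 : (Ex r q s).card ≤ (s * q) ^ r * s := by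
    refine (Finset.card_filter_le _ _).trans ?_
    simp
  have h2 : q ≤ r * ((q - 1) / r + 1) := by
    have h3 : q - 1 < r * ((q - 1) / r + 1) := Nat.lt_mul_div_succ _ (by omega)
    omega
  rw [card_Rx_eq]
  calc (Ex r q s).card ≤ (s * q) ^ r * s := h1
    _ ≤ (s * (r * ((q - 1) / r + 1))) ^ r * s :=
        Nat.mul_le_mul_right _ (Nat.pow_le_pow_left (Nat.mul_le_mul_left _ h2) _)
    _ = s * (s * r) ^ r * ((q - 1) / r + 1) ^ r := by
        rw [← mul_assoc, mul_pow (s * r)]; ring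

/-- The number of the other columns is at most `q ^ r`. -/
theorem card_Rx_le {r q : ℕ} (hr : 1 ≤ r) (hq : 0 < q) : (Rx r q).card ≤ q ^ r := by
  rw [card_Rx_eq]
  have h1 : (q - 1) / r ≤ q - 1 := Nat.div_le_self _ _
  exact Nat.pow_le_pow_left (by omega) _

end Pool.Agent.Helper45.ZE
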